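import Pool.Agent.H45.SF.GT
import Pool.Agent.H9.SF.Bas

/-! AM of the board sf_modules: atomic formulas. -/

open Ordinal Cardinal Order Set
open scoped ZFSet

namespace SF.H30

open SF

theorem am (hTR : T_TR) : T_AM := by
  intro B _ N' N b σ hNP hm x y x2 y2 hne
  classical
  have key : ∀ R : (V → Prop) → (ℕ → V) → Prop, Dfb ZFm R →
      (R (· ∈ N') (fun i => (if i = 0 then (x, y) else (x2, y2)).1) ↔
        R (· ∈ N) (fun i => (if i = 0 then (x, y) else (x2, y2)).2)) := by
    intro R hR
    refine hTR R hR B N' N b σ hNP hm {(x, y), (x2, y2)} ?_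
      (fun i => if i = 0 then (x, y) else (x2, y2)) ?_
    · rw [Finset.inf_insert, Finset.inf_singleton]
      exact hne
    · intro i
      by_cases hi : i = 0
      · simp [hi]
      · simp [hi]
  refine ⟨?_, ?_, ?_, ?_⟩
  · have h := key (fun _ v => v 0 ∈ v 1) (Dfb.mem (Tm.var 0) (Tm.var 1))
    simpa using h
  · have h := key (fun _ v => v 0 = v 1) (Dfb.eq (Tm.var 0) (Tm.var 1))
    simpa using h
  · have h := key (fun _ v => v 0 ⊆ v 1) (Dfb.subset (Tm.var 0) (Tm.var 1))
    simpa using h
  · have h := key (fun _ v => v 0 = ∅) (Dfb.eq (Tm.var 0) Tm.empty)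
    simpa using h

end SF.H30
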