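import Pool.Agent.H45.SF.GT

/-! BJ of the board sf_modules: join of maps with disjoint values. -/

open Ordinal Cardinal Order Set
open scoped ZFSet

namespace SF.H30

open SF

theorem bj_le {B : V} [IsCBA B] {N' N : V} {b : El B} {σ : V → V → El B} (h : BMap N' N b σ)
    (x y : V) : σ x y ≤ b := by
  by_cases hx : x ∈ N'
  · exact (le_iSup (fun y => σ x y) y).trans (h.tot x hx).le
  · have h1 : σ x y = ⊥ := by
      by_contra h0
      exact hx (h.dom x y h0).1
    rw [h1]
    exact bot_le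

theorem bj_inf {B : V} [IsCBA B] {I : Type 1} (b : I → El B) (f : I → V × V → El B)
    (hb : ∀ i q, f i q ≤ b i) (hd : ∀ i j, i ≠ j → b i ⊓ b j = ⊥) (s : Finset (V × V))
    (hs : s.Nonempty) : (s.inf fun q => ⨆ i, f i q) ≤ ⨆ i, s.inf (f i) := by
  classical
  induction hs using Finset.Nonempty.cons_induction with
  | singleton a => simp
  | cons a s ha hs ih =>
    rw [Finset.inf_cons]
    refine (inf_le_inf_left _ ih).trans ?_
    rw [iSup_inf_iSup]
    refine iSup_le fun p => ?_
    by_cases hij : p.1 = p.2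
    · refine le_trans ?_ (le_iSup _ p.1)
      rw [Finset.inf_cons, ← hij]
    · obtain ⟨c, hc⟩ := hs
      have h1 : f p.1 a ⊓ s.inf (f p.2) ≤ b p.1 ⊓ b p.2 :=
        inf_le_inf (hb _ _) ((Finset.inf_le hc).trans (hb _ _))
      rw [hd _ _ hij] at h1
      exact h1.trans bot_le

theorem bj : T_BJ := by
  intro B _ N' N I b σ hdis hm
  have hle : ∀ i x y, σ i x y ≤ b i := fun i x y => bj_le (hm i) x y
  refine ⟨?_, ?_, ?_, ?_⟩
  · intro x hx
    rw [iSup_comm]
    exact iSup_congr fun i => (hm i).tot x hx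
  · intro x y y' hy
    rw [iSup_inf_iSup]
    refine le_bot_iff.1 (iSup_le fun p => ?_)
    by_cases hij : p.1 = p.2
    · rw [hij, (hm p.2).fn x y y' hy]
    · rw [← hdis p.1 p.2 hij]
      exact inf_le_inf (hle _ _ _) (hle _ _ _)
  · intro x y h
    have h1 : ∃ i, σ i x y ≠ ⊥ := by
      by_contra h2
      push Not at h2
      exact h (iSup_eq_bot.2 h2)
    obtain ⟨i, hi⟩ := h1
    exact (hm i).dom x y hi
  · intro s hs v hv φ
    have hne : s.Nonempty := ⟨v 0, hv 0⟩
    have h1 := bj_inf b (fun i q => σ i q.1 q.2) (fun i q => hle i q.1 q.2) hdis s hne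
    have h2 : ∃ i, (s.inf fun q => σ i q.1 q.2) ≠ ⊥ := by
      by_contra h3
      push Not at h3
      have h4 : (⨆ i, s.inf fun q => σ i q.1 q.2) = ⊥ := iSup_eq_bot.2 h3
      exact hs (le_bot_iff.1 (h1.trans h4.le))
    obtain ⟨i, hi⟩ := h2
    exact (hm i).el s hi v hv φ

end SF.H30
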