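import Pool.Agent.H45.SF.GT

/-! G5 of the board sf_modules: totally bad frames. -/

open Ordinal Cardinal Order Set
open scoped ZFSet

namespace SF.H30

open SF

/-- restriction of a frame -/
theorem g5_res (hBR : T_BR) {A C : BA} {h : BMor A C} {p : V} (F : Frame h p) (b2 : El A.B)
    (hle : b2 ≤ F.b) (hne : b2 ≠ ⊥) : ∃ F' : Frame h p, F'.le F ∧ F'.b = b2 := by
  have hk : ∀ x y, F.σ x y = F.b → F.σ x y ⊓ b2 = b2 := by
    intro x y hxy
    rw [hxy]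
    exact inf_eq_right.2 hle
  have hmap : BMap F.N' F.N b2 (fun x y => F.σ x y ⊓ b2) :=
    hBR A.B A.B F.N' F.N F.b F.σ (Mor.id A.B) F.map b2 hle
  refine ⟨{ N' := F.N', N := F.N, b := b2, σ := fun x y => F.σ x y ⊓ b2, w := F.w, B' := F.B',
            C' := F.C', h' := F.h', p' := F.p', G' := F.G', np := F.np, ne := hne, map := hmap,
            kw := hk _ _ F.kw, kB := hk _ _ F.kB, kC := hk _ _ F.kC, kh := hk _ _ F.kh,
            kp := hk _ _ F.kp, gen := F.gen, top := F.top,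
            com := fun x y h1 h2 z => inf_le_left.trans (F.com x y h1 h2 z),
            sc := fun r hr => hle.trans (F.sc r hr) },
    ⟨rfl, rfl, hle, fun _ _ => rfl, rfl, rfl, rfl, rfl, rfl, rfl⟩, rfl⟩

theorem g5_trans {A C : BA} {h : BMor A C} {p : V} {F2 F1 F : Frame h p} (h2 : F2.le F1)
    (h1 : F1.le F) : F2.le F := by
  obtain ⟨a1, a2, a3, a4, a5, a6, a7, a8, a9, a10⟩ := h2
  obtain ⟨b1, b2, b3, b4, b5, b6, b7, b8, b9, b10⟩ := h1
  refine ⟨a1.trans b1, a2.trans b2, a3.trans b3, ?_, a5.trans b5, a6.trans b6, a7.trans b7,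
    a8.trans b8, a9.trans b9, a10.trans b10⟩
  intro x y
  rw [a4, b4, inf_assoc, inf_eq_right.2 a3]

/-- a maximal disjoint family in a set which is dense below `b` has the join `b` -/
theorem g5_max {B : V} [IsCBA B] (b : El B) (D : Set (El B)) (h0 : ∀ x ∈ D, x ≤ b ∧ x ≠ ⊥)
    (hd : ∀ x ≤ b, x ≠ ⊥ → ∃ y ∈ D, y ≤ x) :
    ∃ S ⊆ D, (∀ s ∈ S, ∀ t ∈ S, s ≠ t → s ⊓ t = ⊥) ∧ sSup S = b := by
  obtain ⟨S, hS⟩ := zorn_subset {S : Set (El B) | S ⊆ D ∧ ∀ s ∈ S, ∀ t ∈ S, s ≠ t → s ⊓ t = ⊥}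
    (by
      intro c hc hch
      refine ⟨⋃₀ c, ⟨?_, ?_⟩, fun s hs => Set.subset_sUnion_of_mem hs⟩
      · exact Set.sUnion_subset fun s hs => (hc hs).1
      · rintro s ⟨a, ha, hsa⟩ t ⟨a2, ha2, hta⟩ hst
        rcases hch.total ha ha2 with h | h
        · exact (hc ha2).2 s (h hsa) t hta hst
        · exact (hc ha).2 s hsa t (h hta) hst)
  refine ⟨S, hS.prop.1, hS.prop.2, ?_⟩
  have hle : sSup S ≤ b := sSup_le fun s hs => (h0 s (hS.prop.1 hs)).1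
  by_contra hne
  have h1 : b \ sSup S ≠ ⊥ := by
    intro h2
    exact hne (le_antisymm hle (sdiff_eq_bot_iff.1 h2))
  obtain ⟨y, hy, hyx⟩ := hd (b \ sSup S) sdiff_le h1
  have hy0 : y ≠ ⊥ := (h0 y hy).2
  have h3 : ∀ s ∈ S, y ⊓ s = ⊥ := by
    intro s hs
    refine le_bot_iff.1 ?_
    calc y ⊓ s ≤ (b \ sSup S) ⊓ sSup S := inf_le_inf hyx (le_sSup hs)
      _ = ⊥ := disjoint_sdiff_self_left.eq_bot
  have h4 : insert y S ∈ {S : Set (El B) | S ⊆ D ∧ ∀ s ∈ S, ∀ t ∈ S, s ≠ t → s ⊓ t = ⊥} := by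
    refine ⟨Set.insert_subset hy hS.prop.1, ?_⟩
    rintro s (rfl | hs) t (rfl | ht) hst
    · exact absurd rfl hst
    · exact h3 t ht
    · rw [inf_comm]; exact h3 s hs
    · exact hS.prop.2 s hs t ht hst
  have h5 : y ∈ S := hS.le_of_ge h4 (Set.subset_insert y S) (Set.mem_insert y S)
  have h6 := h3 y h5
  rw [inf_idem] at h6
  exact hy0 h6

theorem g5 (hMB : T_MB) (hBR : T_BR) (hBJ : T_BJ) : T_G5 := by
  intro A C h p F q hq
  refine ⟨fun b hb hb0 => g5_res hBR F b hb hb0, ?_⟩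
  intro hno
  by_contra hcon
  push Not at hcon
  refine hno ?_
  obtain ⟨hmono, hbot, -⟩ := hMB A.B C.B h.toMor
  let D : Set (El A.B) := {b | ∃ F2 : Frame h p, F2.le F ∧ F2.b = b ∧ ∃ c σ', IsLift F2 q c σ'}
  obtain ⟨S, hSD, hdis, hsup⟩ := g5_max F.b D
    (by
      rintro x ⟨F2, h1, rfl, -⟩
      exact ⟨h1.2.2.1, F2.ne⟩)
    (by
      intro x hx hx0
      obtain ⟨F1, h1, rfl⟩ := g5_res hBR F x hx hx0
      obtain ⟨F2, h2, h3⟩ := hcon F1 h1
      exact ⟨F2.b, ⟨F2, g5_trans h2 h1, rfl, h3⟩, h2.2.2.1⟩)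
  have hch : ∀ s : S, ∃ (F2 : Frame h p) (c : El C.B) (σ' : V → V → El C.B),
      F2.le F ∧ F2.b = s.1 ∧ IsLift F2 q c σ' := by
    rintro ⟨s, hs⟩
    obtain ⟨F2, h1, h2, c, σ', h3⟩ := hSD hs
    exact ⟨F2, c, σ', h1, h2, h3⟩
  choose G c τ hG hGb hl using hch
  have hcs : ∀ s : S, c s ≤ h s.1 := by
    intro s
    have h1 := (hl s).le
    rw [hGb s] at h1
    exact h1
  have hcd : ∀ s t : S, s ≠ t → c s ⊓ c t = ⊥ := by
    intro s t hst
    refine le_bot_iff.1 ?_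
    calc c s ⊓ c t ≤ h s.1 ⊓ h t.1 := inf_le_inf (hcs s) (hcs t)
      _ = h (s.1 ⊓ t.1) := (h.inf _ _).symm
      _ = h ⊥ := by rw [hdis s.1 s.2 t.1 t.2 (fun e => hst (Subtype.ext e))]
      _ = ⊥ := hbot
  refine ⟨⨆ s, c s, fun x y => ⨆ s, τ s x y, ?_⟩
  refine ⟨?_, ?_, ?_, ?_, ?_⟩
  · refine iSup_le fun s => (hcs s).trans (hmono _ _ ?_)
    rw [← hsup]
    exact le_sSup s.2
  · intro b hb
    rw [← hsup]
    refine sSup_le fun s hs => ?_
    have h1 := (hl ⟨s, hs⟩).proj b ((le_iSup c ⟨s, hs⟩).trans hb)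
    rw [hGb ⟨s, hs⟩] at h1
    exact h1
  · refine hBJ C.B F.N' F.N S c τ hcd fun s => ?_
    have h1 := (hl s).map
    rw [(hG s).1, (hG s).2.1] at h1
    exact h1
  · intro x hx z
    refine iSup_le fun s => (hl s).com x ?_ z
    rw [(hG s).2.2.2.2.2.2.2.2.2]
    exact hx
  · intro z
    rw [iSup_inf_eq]
    refine iSup_le fun s => ?_
    refine le_trans ?_ (le_iSup (fun s => τ s q z) s)
    refine le_trans ?_ ((hl s).keep z)
    refine le_inf inf_le_left ?_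
    rw [(hG s).2.2.2.1, hGb s, h.inf]
    exact le_inf inf_le_right (inf_le_left.trans (hcs s))

end SF.H30
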