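import Pool.Agent.H84.SF.Fin
import Pool.Agent.H27.LV.LVX
import Pool.Agent.H64.SC.Api

/-!
# MP_70ba79_ag, THEOREM S, row GCZ (homogeneous ideal)
-/

set_option autoImplicit false

namespace Pool.Agent.H30.SF

open MvPolynomial SC
open Pool.Agent.H27.LV (ge deg poleOrder canDeg DegreeBound)
open Pool.Agent.H84.SF

/-- GCZ for homogeneous ideals: arbitrary homogeneous coordinates, degree of the image -/
def T_GCZh : Prop := ∀ (k τ : Type) [Field k] [IsAlgClosed k] [CharZero k] [Fintype τ]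
  (I : Ideal (MvPolynomial τ k)) (G : MvPolynomial τ k) (m : ℕ) (c : Fin 3 → τ → k),
  (∀ Φ : MvPolynomial (Fin 3) k, Φ ≠ 0 →
    aeval (lin c (X : τ → MvPolynomial τ k)) Φ ∉ I) → HId I → 1 ≤ m → G.IsHomogeneous m →
  SfM I G m →
  ∃ (B M N : ℕ) (Ψ : MvPolynomial τ k), Ψ ∉ I ∧ Ψ.IsHomogeneous N ∧
  ∀ (K : Type) [Field K] [Algebra k K] [Algebra.EssFiniteType k K], Algebra.trdeg k K = 1 →
  ∀ (D : Derivation k K K), D ≠ 0 → ∀ (z : τ → K) (S : Finset (DV k K)),
  (∀ f ∈ I, aeval z f = 0) → aeval z G ≠ 0 →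
  (∀ v, v ∉ S → ∃ j, z j ≠ 0 ∧ (∀ i, z i ≠ 0 → v.ord (z j) ≤ v.ord (z i)) ∧
    (v.ord (aeval z G) = m * v.ord (z j) ∨ m * v.ord (z j) + M ≤ v.ord (aeval z G))) →
  (∃ (e : ℕ) (Φ : MvPolynomial τ k), (e : ℤ) ≤ B * max 1 (canDeg D + S.card) ∧ Φ ∉ I ∧
    Φ.IsHomogeneous e ∧ aeval z Φ = 0) ∧
  (aeval z Ψ ≠ 0 → (∃ i j, z j ≠ 0 ∧ z i / z j ∉ Set.range (algebraMap k K)) →
    1 ≤ canDeg D + S.card ∧
    ∀ j, z j ≠ 0 → deg k (fun i => z i / z j) ≤ B * (canDeg D + S.card))

namespace GCZ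

lemma smul_hom {τ k L : Type} [Field k] [Field L] [Algebra k L] (P : MvPolynomial τ k)
    (e : ℕ) (hP : P.IsHomogeneous e) (c : L) (x : τ → L) :
    aeval (fun i => c * x i) P = c ^ e * aeval x P := by
  rw [aeval_def, aeval_def, eval₂_eq, eval₂_eq, Finset.mul_sum]
  refine Finset.sum_congr rfl fun m hm => ?_
  have h1 : ∑ i ∈ m.support, m i = e := by
    have h := hP (mem_support_iff.1 hm)
    rw [Finsupp.weight_apply, Finsupp.sum] at h
    simpa using h
  rw [← h1, ← Finset.prod_pow_eq_pow_sum]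
  have h2 : ∏ i ∈ m.support, (c * x i) ^ m i = (∏ i ∈ m.support, c ^ m i) *
      ∏ i ∈ m.support, x i ^ m i := by
    rw [← Finset.prod_mul_distrib]
    exact Finset.prod_congr rfl fun i _ => mul_pow _ _ _
  rw [h2]
  ring

/-- points of a homogeneous ideal can be scaled -/
lemma scale {τ k L : Type} [Field k] [Field L] [Algebra k L] {I : Ideal (MvPolynomial τ k)}
    (hI : HId I) (c : L) {x : τ → L} (h : ∀ f ∈ I, aeval x f = 0) :
    ∀ f ∈ I, aeval (fun i => c * x i) f = 0 := by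
  intro f hf
  rw [← sum_homogeneousComponent f, map_sum]
  refine Finset.sum_eq_zero fun d _ => ?_
  rw [smul_hom _ d (homogeneousComponent_isHomogeneous d f), h _ (hI f hf d), mul_zero]

/-- the point in the coordinates in which `x j0 = 1` -/
lemma crm {k K τ : Type} [Fintype τ] [Field k] [Field K] [Algebra k K]
    {I : Ideal (MvPolynomial τ k)} (hI : HId I) (G : MvPolynomial τ k) (d m : ℕ)
    (hG : G.IsHomogeneous d) (x : τ → K) (S : Finset (DV k K)) (hxI : ∀ f ∈ I, aeval x f = 0)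
    (hx : aeval x G ≠ 0)
    (hS : ∀ v : DV k K, v ∉ S → ∃ j, x j ≠ 0 ∧ (∀ i, x i ≠ 0 → v.ord (x j) ≤ v.ord (x i)) ∧
      (v.ord (aeval x G) = d * v.ord (x j) ∨ d * v.ord (x j) + m ≤ v.ord (aeval x G)))
    (j0 : τ) (hj0 : x j0 ≠ 0) : CrM I G d m (fun i => (x j0)⁻¹ * x i) S := by
  have hinv : (x j0)⁻¹ ≠ 0 := inv_ne_zero hj0
  refine ⟨scale hI _ hxI, ⟨j0, inv_mul_cancel₀ hj0⟩, ?_, ?_⟩
  · rw [smul_hom G d hG]
    exact mul_ne_zero (pow_ne_zero _ hinv) hx
  · intro v hv
    obtain ⟨j, hj, hmin, hord⟩ := hS v hv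
    have hp : (poleOrder v (fun i => (x j0)⁻¹ * x i) : ℤ) = v.ord (x j0) - v.ord (x j) := by
      have hle : v.ord (x j) ≤ v.ord (x j0) := hmin j0 hj0
      apply le_antisymm
      · obtain ⟨p, hp⟩ := Int.eq_ofNat_of_zero_le (sub_nonneg.2 hle)
        rw [hp]
        have : poleOrder v (fun i => (x j0)⁻¹ * x i) ≤ p := by
          refine Finset.sup_le fun i _ => ?_
          change (-(v.ord ((x j0)⁻¹ * x i))).toNat ≤ p
          by_cases hi : x i = 0
          · rw [hi, mul_zero, v.ord_zero]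
            simp
          · rw [DV.ord_mul' v hinv hi, DV.ord_inv]
            have := hmin i hi
            omega
        exact_mod_cast this
      · have h1 : (-(v.ord ((x j0)⁻¹ * x j))).toNat ≤
            poleOrder v (fun i => (x j0)⁻¹ * x i) :=
          Finset.le_sup (f := fun i => (-(v.ord ((x j0)⁻¹ * x i))).toNat) (Finset.mem_univ j)
        rw [DV.ord_mul' v hinv hj, DV.ord_inv] at h1
        omega
    rw [smul_hom G d hG, DV.ord_mul' v (pow_ne_zero _ hinv) hx, DV.ord_pow, DV.ord_inv, hp]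
    rcases hord with h | h
    · left
      rw [h]
      ring
    · right
      linarith

/-- the degree of a linear projection -/
lemma deg_lin {k K τ : Type} [Fintype τ] [Field k] [IsAlgClosed k] [CharZero k] [Field K]
    [Algebra k K] [Algebra.EssFiniteType k K] (htr : Algebra.trdeg k K = 1)
    (c : Fin 3 → τ → k) (z : τ → K) (l0 : Fin 3) (h0 : lin c z l0 ≠ 0) :
    deg k (fun l => lin c z l / lin c z l0) ≤ deg k z := by
  have hge : ∀ (v : DV k K) (l : Fin 3), lin c z l ≠ 0 →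
      -(poleOrder v z : ℤ) ≤ v.ord (lin c z l) := by
    intro v l hl
    have h1 : ge v (-(poleOrder v z : ℤ)) (lin c z l) := by
      unfold lin
      refine Pool.Agent.H27.LV.ge_sum v _ _ _ fun s _ => ?_
      rw [Algebra.smul_def]
      have h2 : ge v (-(poleOrder v z : ℤ)) (z s) := Or.inr (Pool.Agent.H27.LV.npole_le v z s)
      have h3 := (Pool.Agent.H27.LV.ge_const (v := v) (c l s)).mul h2
      rwa [zero_add] at h3
    rcases h1 with h1 | h1
    · exact absurd h1 hl
    · exact h1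
  have hpt : ∀ v : DV k K, (poleOrder v (fun l => lin c z l / lin c z l0) : ℤ) ≤
      poleOrder v z + v.ord (lin c z l0) := by
    intro v
    have h1 := hge v l0 h0
    obtain ⟨p, hp⟩ := Int.eq_ofNat_of_zero_le (show 0 ≤ (poleOrder v z : ℤ) +
      v.ord (lin c z l0) by linarith)
    rw [hp]
    have h2 : poleOrder v (fun l => lin c z l / lin c z l0) ≤ p := by
      refine Pool.Agent.H27.LV.poleOrder_le v _ _ fun l => ?_
      by_cases hl : lin c z l = 0
      · rw [hl, zero_div, v.ord_zero]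
        omega
      · rw [DV.ord_div v hl h0]
        have h3 := hge v l hl
        omega
    exact_mod_cast h2
  have h1 : (deg k (fun l => lin c z l / lin c z l0) : ℤ) ≤ deg k z := by
    rw [Pool.Agent.H27.LV.cast_deg htr, Pool.Agent.H27.LV.cast_deg htr]
    have hf1 : (Function.support fun v : DV k K =>
        (poleOrder v (fun l => lin c z l / lin c z l0) : ℤ)).Finite :=
      (Pool.Agent.H27.LV.pfi k K htr (Fin 3) (fun l => lin c z l / lin c z l0)).subset
        (by
          intro v hv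
          simp only [Function.mem_support] at hv
          change poleOrder v _ ≠ 0
          exact_mod_cast hv)
    have hf2 : (Function.support fun v : DV k K => (poleOrder v z : ℤ)).Finite :=
      (Pool.Agent.H27.LV.pfi k K htr τ z).subset
        (by
          intro v hv
          simp only [Function.mem_support] at hv
          change poleOrder v _ ≠ 0
          exact_mod_cast hv)
    have hf3 := (Pool.Agent.H27.LV.pfm k K htr (lin c z l0)).1
    have e1 : ∑ᶠ v : DV k K, ((poleOrder v z : ℤ) + v.ord (lin c z l0)) =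
        ∑ᶠ v : DV k K, (poleOrder v z : ℤ) := by
      rw [finsum_add_distrib hf2 hf3, (Pool.Agent.H27.LV.pfm k K htr (lin c z l0)).2, add_zero]
    rw [← e1]
    exact finsum_le_finsum' hf1 ((hf2.union hf3).subset (Function.support_add _ _)) hpt
  exact_mod_cast h1

lemma lin_hom {k τ : Type} [Fintype τ] [Field k] (c : Fin 3 → τ → k) (l : Fin 3) :
    (lin c (X : τ → MvPolynomial τ k) l).IsHomogeneous 1 := by
  unfold lin
  refine IsHomogeneous.sum _ _ _ fun s _ => ?_
  rw [smul_eq_C_mul]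
  exact (isHomogeneous_X k s).C_mul _

lemma aeval_lin {k τ A : Type} [Fintype τ] [Field k] [CommRing A] [Algebra k A]
    (c : Fin 3 → τ → k) (z : τ → A) (Φ : MvPolynomial (Fin 3) k) :
    aeval z (aeval (lin c (X : τ → MvPolynomial τ k)) Φ) = aeval (lin c z) Φ := by
  rw [← AlgHom.comp_apply, comp_aeval]
  congr 1
  apply algHom_ext
  intro l
  rw [aeval_X, aeval_X]
  unfold lin
  rw [map_sum]
  refine Finset.sum_congr rfl fun s _ => ?_
  rw [map_smul, aeval_X]

lemma lin_smul {k τ K : Type} [Fintype τ] [Field k] [Field K] [Algebra k K]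
    (c : Fin 3 → τ → k) (a : K) (z : τ → K) :
    lin c (fun i => a * z i) = fun l => a * lin c z l := by
  funext l
  unfold lin
  rw [Finset.mul_sum]
  refine Finset.sum_congr rfl fun s _ => ?_
  rw [mul_smul_comm]

end GCZ

theorem pf_GCZh (hIMF : Pool.Agent.H84.SM.T_IMF) : T_GCZh := by
  intro k τ _ _ _ _ I G d c hc hI hd hG hsf
  obtain ⟨B, m, N, Ψ, hΨ0, hΨN, hB⟩ := hsf
  refine ⟨max (2 * B + 1) (N + 1), m, N, Ψ, hΨ0, hΨN, ?_⟩
  intro K _ _ _ htr D hD x S hxI hx hS
  have hB1 : ((2 * B + 1 : ℕ) : ℤ) ≤ ((max (2 * B + 1) (N + 1) : ℕ) : ℤ) := by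
    exact_mod_cast le_max_left _ _
  have hB2 : ((N + 1 : ℕ) : ℤ) ≤ ((max (2 * B + 1) (N + 1) : ℕ) : ℤ) := by
    exact_mod_cast le_max_right _ _
  generalize ((max (2 * B + 1) (N + 1) : ℕ) : ℤ) = B' at hB1 hB2 ⊢
  push_cast at hB1 hB2
  have hfun : ∀ j0, (fun i => x i / x j0) = fun i => (x j0)⁻¹ * x i := by
    intro j0
    funext i
    rw [div_eq_mul_inv, mul_comm]
  -- the part about the degree of the map
  have hb : aeval x Ψ ≠ 0 → (∃ i j, x j ≠ 0 ∧ x i / x j ∉ Set.range (algebraMap k K)) →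
      ∀ j0, x j0 ≠ 0 → 1 ≤ canDeg D + (S.card : ℤ) ∧
        (deg k (fun i => (x j0)⁻¹ * x i) : ℤ) ≤ B * (canDeg D + S.card) := by
    intro hΨ hex j0 hj0
    refine hB K htr D hD (fun i => (x j0)⁻¹ * x i) S
      (GCZ.crm hI G d m hG x S hxI hx hS j0 hj0) ?_ ?_
    · rw [GCZ.smul_hom Ψ N hΨN]
      exact mul_ne_zero (pow_ne_zero _ (inv_ne_zero hj0)) hΨ
    · by_contra hcon
      push Not at hcon
      obtain ⟨i, j, hj, hij⟩ := hex
      obtain ⟨a, ha⟩ := hcon i
      obtain ⟨b, hb⟩ := hcon j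
      apply hij
      refine ⟨a / b, ?_⟩
      rw [map_div₀, ha, hb]
      exact mul_div_mul_left _ _ (inv_ne_zero hj0)
  refine ⟨?_, ?_⟩
  · have h0 : ∃ j, x j ≠ 0 := by
      by_contra h
      push Not at h
      apply hx
      have h1 : x = fun i => (0 : K) * x i := by
        funext i
        rw [h i, mul_zero]
      rw [h1, GCZ.smul_hom G d hG, zero_pow (by omega), zero_mul]
    obtain ⟨j0, hj0⟩ := h0
    have hM : (1 : ℤ) ≤ max 1 (canDeg D + S.card) := le_max_left _ _
    have hM' : canDeg D + (S.card : ℤ) ≤ max 1 (canDeg D + S.card) := le_max_right _ _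
    by_cases hΨ : aeval x Ψ = 0
    · refine ⟨N, Ψ, ?_, hΨ0, hΨN, hΨ⟩
      nlinarith
    -- a form in three variables gives a form
    have key : ∀ (e : ℕ) (Φ : MvPolynomial (Fin 3) k), Φ ≠ 0 → Φ.IsHomogeneous e →
        aeval (lin c x) Φ = 0 → (e : ℤ) ≤ B' * max 1 (canDeg D + S.card) →
        ∃ (e : ℕ) (Φ : MvPolynomial τ k), (e : ℤ) ≤ B' * max 1 (canDeg D + S.card) ∧ Φ ∉ I ∧
          Φ.IsHomogeneous e ∧ aeval x Φ = 0 := by
      intro e Φ hΦ0 hΦe hΦ he
      refine ⟨e, aeval (lin c X) Φ, he, hc Φ hΦ0, ?_, ?_⟩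
      · have h1 := hΦe.aeval (lin c (X : τ → MvPolynomial τ k)) (fun l => GCZ.lin_hom c l)
        rwa [one_mul] at h1
      · rw [GCZ.aeval_lin, hΦ]
    have hB'1 : (1 : ℤ) ≤ B' * max 1 (canDeg D + S.card) := by
      have hBn : (0 : ℤ) ≤ B := Int.natCast_nonneg _
      nlinarith
    by_cases hw : ∃ l0, lin c x l0 ≠ 0
    · obtain ⟨l0, hl0⟩ := hw
      by_cases hex : ∃ i j, x j ≠ 0 ∧ x i / x j ∉ Set.range (algebraMap k K)
      · obtain ⟨h1, h2⟩ := hb hΨ hex j0 hj0
        have hl0' : lin c (fun i => (x j0)⁻¹ * x i) l0 ≠ 0 := by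
          rw [GCZ.lin_smul]
          exact mul_ne_zero (inv_ne_zero hj0) hl0
        have hdeg := GCZ.deg_lin htr c (fun i => (x j0)⁻¹ * x i) l0 hl0'
        obtain ⟨e, Φ, he, hΦ0, hΦe, hΦ⟩ := hIMF k K htr
          (fun l => lin c (fun i => (x j0)⁻¹ * x i) l / lin c (fun i => (x j0)⁻¹ * x i) l0)
          ⟨l0, div_self hl0'⟩
        refine key e Φ hΦ0 hΦe ?_ ?_
        · have h3 : (fun l => lin c (fun i => (x j0)⁻¹ * x i) l /
              lin c (fun i => (x j0)⁻¹ * x i) l0) = fun l => (lin c x l0)⁻¹ * lin c x l := by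
            funext l
            rw [GCZ.lin_smul]
            simp only
            rw [mul_div_mul_left _ _ (inv_ne_zero hj0), div_eq_mul_inv, mul_comm]
          rw [h3, GCZ.smul_hom Φ e hΦe] at hΦ
          exact (mul_eq_zero.1 hΦ).resolve_left (pow_ne_zero _ (inv_ne_zero hl0))
        · have he' : (e : ℤ) ≤ 2 * (deg k (fun i => (x j0)⁻¹ * x i) : ℤ) + 1 := by
            have h4 : e ≤ 2 * deg k (fun i => (x j0)⁻¹ * x i) + 1 := by omega
            exact_mod_cast h4
          nlinarith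
      · push Not at hex
        choose a ha using fun i => hex i j0 hj0
        obtain ⟨b, hb2⟩ : ∃ b : Fin 3 → k, ∀ l, lin c x l = algebraMap k K (b l) * x j0 := by
          refine ⟨fun l => ∑ s, c l s * a s, fun l => ?_⟩
          unfold lin
          rw [map_sum, Finset.sum_mul]
          refine Finset.sum_congr rfl fun s _ => ?_
          rw [map_mul, ha s, Algebra.smul_def, mul_assoc, div_mul_cancel₀ _ hj0]
        have hbl0 : b l0 ≠ 0 := by
          intro h1
          apply hl0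
          rw [hb2 l0, h1, map_zero, zero_mul]
        obtain ⟨l1, hl1⟩ : ∃ l1 : Fin 3, l1 ≠ l0 := ⟨l0 + 1, by fin_cases l0 <;> decide⟩
        refine key 1 (C (b l0) * X l1 - C (b l1) * X l0) ?_ ?_ ?_ ?_
        · intro h
          have h3 := congrArg (eval (fun i => if i = l1 then (1 : k) else 0)) h
          simp only [map_sub, map_mul, eval_X, eval_C, if_true, if_neg hl1.symm, mul_zero,
            sub_zero, map_zero, mul_one] at h3
          exact hbl0 h3
        · exact ((isHomogeneous_X k l1).C_mul _).sub ((isHomogeneous_X k l0).C_mul _)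
        · rw [map_sub, map_mul, map_mul, aeval_X, aeval_X, aeval_C, aeval_C, hb2 l0, hb2 l1]
          ring
        · exact_mod_cast hB'1
    · push Not at hw
      refine key 1 (X 0) (X_ne_zero 0) (isHomogeneous_X k 0) ?_ ?_
      · rw [aeval_X, hw 0]
      · exact_mod_cast hB'1
  · intro hΨ hex
    obtain ⟨_, j, hj, _⟩ := id hex
    have h1 := (hb hΨ hex j hj).1
    refine ⟨h1, fun j0 hj0 => ?_⟩
    rw [hfun j0]
    have h2 := (hb hΨ hex j0 hj0).2
    have hB0 : (0 : ℤ) ≤ B := Int.natCast_nonneg _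
    nlinarith

end Pool.Agent.H30.SF
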