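import Pool.Agent.H9.SF.WDefs

/-! WJ of the board sf_modules: definability of `NBs`, `CBs`, `DBs`. -/

set_option linter.unusedVariables false

open Ordinal Cardinal Order Set
open scoped ZFSet

namespace SF.H30

open SF

theorem wj_nz (i : ℕ) : Dfb ZFm (fun _ v => v i ≠ ∅) := (Dfb.eq (Tm.var i) Tm.empty).not

theorem wj_nb : Dfb ZFm (fun M v => NBs M (v 0) (v 1)) := by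
  have h1 : Dfb ZFm (fun _ v => v 1 ∩ app (v 4) (ZFSet.pair (v 2) (v 0)) ≠ ∅) :=
    (Dfb.eq (Tm.inter (Tm.var 1) (Tm.app (Tm.var 4) (Tm.pair (Tm.var 2) (Tm.var 0)))) Tm.empty).not
  have h2 : Dfb ZFm (fun _ v => v 0 ≠ ∅ → v 0 ⊆ v 2 →
      ∃ β ∈ v 4, v 0 ∩ app (v 3) (ZFSet.pair (v 1) β) ≠ ∅) :=
    (wj_nz 0).imp ((Dfb.subset (Tm.var 0) (Tm.var 2)).imp (Dfb.bex ktr_zfm (Tm.var 4) h1))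
  have h3 : Dfb ZFm (fun _ v => ∀ x ∈ v 4, x ≠ ∅ → x ⊆ v 1 →
      ∃ β ∈ v 3, x ∩ app (v 2) (ZFSet.pair (v 0) β) ≠ ∅) := Dfb.ball ktr_zfm (Tm.var 4) h2
  have h4 : Dfb ZFm (fun _ v => ∀ n ∈ om, ∀ x ∈ v 3, x ≠ ∅ → x ⊆ v 0 →
      ∃ β ∈ v 2, x ∩ app (v 1) (ZFSet.pair n β) ≠ ∅) := Dfb.ball ktr_zfm Tm.om h3
  have h5 : Dfb ZFm (fun _ v => v 2 ⊆ app (v 4) (ZFSet.pair (v 0) (app (v 1) (v 0)))) :=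
    Dfb.subset (Tm.var 2) (Tm.app (Tm.var 4) (Tm.pair (Tm.var 0) (Tm.app (Tm.var 1) (Tm.var 0))))
  have h6 : Dfb ZFm (fun _ v => ZFSet.IsFunc om (v 4) (v 0) ∧
      ∀ n ∈ om, v 1 ⊆ app (v 3) (ZFSet.pair n (app (v 0) n))) :=
    (Dfb.isFunc Tm.om (Tm.var 4) (Tm.var 0)).and (Dfb.ball ktr_zfm Tm.om h5)
  have h7 : Dfb ZFm (fun M v => v 0 ≠ ∅ ∧ v 0 ⊆ v 1 ∧ ∃ φ, M φ ∧ ZFSet.IsFunc om (v 3) φ ∧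
      ∀ n ∈ om, v 0 ⊆ app (v 2) (ZFSet.pair n (app φ n))) :=
    (wj_nz 0).and ((Dfb.subset (Tm.var 0) (Tm.var 1)).and h6.ex)
  have h8 : Dfb ZFm (fun M v => v 0 ≠ ∅ → (∀ n ∈ om, ∀ x ∈ v 3, x ≠ ∅ → x ⊆ v 0 →
      ∃ β ∈ v 2, x ∩ app (v 1) (ZFSet.pair n β) ≠ ∅) → ∃ b2 ∈ v 3, b2 ≠ ∅ ∧ b2 ⊆ v 0 ∧
        ∃ φ, M φ ∧ ZFSet.IsFunc om (v 2) φ ∧
        ∀ n ∈ om, b2 ⊆ app (v 1) (ZFSet.pair n (app φ n))) :=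
    (wj_nz 0).imp (h4.imp (Dfb.bex ktr_zfm (Tm.var 3) h7))
  have h9 : Dfb ZFm (fun M v => ZFSet.IsFunc (ZFSet.prod om (v 1)) (v 2) (v 0) →
      ∀ b ∈ v 2, b ≠ ∅ → (∀ n ∈ om, ∀ x ∈ v 2, x ≠ ∅ → x ⊆ b →
      ∃ β ∈ v 1, x ∩ app (v 0) (ZFSet.pair n β) ≠ ∅) → ∃ b2 ∈ v 2, b2 ≠ ∅ ∧ b2 ⊆ b ∧
        ∃ φ, M φ ∧ ZFSet.IsFunc om (v 1) φ ∧
        ∀ n ∈ om, b2 ⊆ app (v 0) (ZFSet.pair n (app φ n))) :=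
    (Dfb.isFunc (Tm.prod Tm.om (Tm.var 1)) (Tm.var 2) (Tm.var 0)).imp
      (Dfb.ball ktr_zfm (Tm.var 2) h8)
  exact h9.all

theorem wj_cb : Dfb ZFm (fun M v => CBs M (v 0) (v 1) (v 2)) := by
  have h1 : Dfb ZFm (fun _ v => v 0 ⊆ v 4 ∧ v 2 ⊆ app (v 7) (ZFSet.pair (v 4) (v 0))) :=
    (Dfb.subset (Tm.var 0) (Tm.var 4)).and
      (Dfb.subset (Tm.var 2) (Tm.app (Tm.var 7) (Tm.pair (Tm.var 4) (Tm.var 0))))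
  have h2 : Dfb ZFm (fun _ v => v 0 ⊆ v 4 → v 0 ∉ v 1 →
      v 2 ∩ app (v 7) (ZFSet.pair (v 4) (v 0)) = ∅) :=
    (Dfb.subset (Tm.var 0) (Tm.var 4)).imp ((Dfb.mem (Tm.var 0) (Tm.var 1)).not.imp
      (Dfb.eq (Tm.inter (Tm.var 2) (Tm.app (Tm.var 7) (Tm.pair (Tm.var 4) (Tm.var 0)))) Tm.empty))
  have h3 : Dfb ZFm (fun M v => Ctbl M (v 0) ∧
      (∀ S ∈ v 0, S ⊆ v 3 ∧ v 1 ⊆ app (v 6) (ZFSet.pair (v 3) S)) ∧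
      ∀ S, M S → S ⊆ v 3 → S ∉ v 0 → v 1 ∩ app (v 6) (ZFSet.pair (v 3) S) = ∅) :=
    (Dfb.ctbl (Tm.var 0)).and ((Dfb.ball ktr_zfm (Tm.var 0) h1).and h2.all)
  have h4 : Dfb ZFm (fun M v => v 0 ≠ ∅ ∧ v 0 ⊆ v 1 ∧ ∃ Y, M Y ∧ Ctbl M Y ∧
      (∀ S ∈ Y, S ⊆ v 2 ∧ v 0 ⊆ app (v 5) (ZFSet.pair (v 2) S)) ∧
      ∀ S, M S → S ⊆ v 2 → S ∉ Y → v 0 ∩ app (v 5) (ZFSet.pair (v 2) S) = ∅) :=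
    (wj_nz 0).and ((Dfb.subset (Tm.var 0) (Tm.var 1)).and h3.ex)
  have h5 : Dfb ZFm (fun M v => v 0 ≠ ∅ → ∃ b2 ∈ v 3, b2 ≠ ∅ ∧ b2 ⊆ v 0 ∧ ∃ Y, M Y ∧ Ctbl M Y ∧
      (∀ S ∈ Y, S ⊆ v 1 ∧ b2 ⊆ app (v 4) (ZFSet.pair (v 1) S)) ∧
      ∀ S, M S → S ⊆ v 1 → S ∉ Y → b2 ∩ app (v 4) (ZFSet.pair (v 1) S) = ∅) :=
    (wj_nz 0).imp (Dfb.bex ktr_zfm (Tm.var 3) h4)
  have h6 : Dfb ZFm (fun M v => ∀ b ∈ v 2, b ≠ ∅ → ∃ b2 ∈ v 2, b2 ≠ ∅ ∧ b2 ⊆ b ∧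
      ∃ Y, M Y ∧ Ctbl M Y ∧
      (∀ S ∈ Y, S ⊆ v 0 ∧ b2 ⊆ app (v 3) (ZFSet.pair (v 0) S)) ∧
      ∀ S, M S → S ⊆ v 0 → S ∉ Y → b2 ∩ app (v 3) (ZFSet.pair (v 0) S) = ∅) :=
    Dfb.ball ktr_zfm (Tm.var 2) h5
  exact Dfb.ball ktr_zfm (Tm.var 0) h6

theorem wj_clb : Dfb ZFm (fun _ v => Clb (v 0) (v 1)) := by
  have h1 : Dfb ZFm (fun _ v => v 0 ∈ v 1 ∨ v 0 = v 1) :=
    (Dfb.mem (Tm.var 0) (Tm.var 1)).or (Dfb.eq (Tm.var 0) (Tm.var 1))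
  have h2 : Dfb ZFm (fun _ v => ∀ x ∈ v 2, x ∈ v 0 ∨ x = v 0) := Dfb.ball ktr_zfm (Tm.var 2) h1
  have h3 : Dfb ZFm (fun _ v => ∃ m ∈ v 1, ∀ x ∈ v 1, x ∈ m ∨ x = m) :=
    Dfb.bex ktr_zfm (Tm.var 1) h2
  have h4 : Dfb ZFm (fun _ v => v 1 ∈ v 0 ∧ v 0 ∈ v 2) :=
    (Dfb.mem (Tm.var 1) (Tm.var 0)).and (Dfb.mem (Tm.var 0) (Tm.var 2))
  have h5 : Dfb ZFm (fun _ v => ∃ γ ∈ v 3, v 0 ∈ γ ∧ γ ∈ v 1) := Dfb.bex ktr_zfm (Tm.var 3) h4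
  have h6 : Dfb ZFm (fun _ v => ∀ β ∈ v 0, ∃ γ ∈ v 2, β ∈ γ ∧ γ ∈ v 0) :=
    Dfb.ball ktr_zfm (Tm.var 0) h5
  have h7 : Dfb ZFm (fun _ v => v 0 ≠ ∅ → (∀ β ∈ v 0, ∃ γ ∈ v 2, β ∈ γ ∧ γ ∈ v 0) → v 0 ∈ v 2) :=
    (wj_nz 0).imp (h6.imp (Dfb.mem (Tm.var 0) (Tm.var 2)))
  have h8 : Dfb ZFm (fun _ v => ∀ α ∈ v 0, α ≠ ∅ →
      (∀ β ∈ α, ∃ γ ∈ v 1, β ∈ γ ∧ γ ∈ α) → α ∈ v 1) := Dfb.ball ktr_zfm (Tm.var 0) h7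
  exact (Dfb.subset (Tm.var 1) (Tm.var 0)).and (h3.and h8)

theorem wj_eex : Dfb ZFm (fun _ v => EEx (v 0) (v 1)) := by
  have h1 : Dfb ZFm (fun _ v => v 1 ∈ v 0 ∨ v 1 = v 0) :=
    (Dfb.mem (Tm.var 1) (Tm.var 0)).or (Dfb.eq (Tm.var 1) (Tm.var 0))
  have h2 : Dfb ZFm (fun _ v => (∃ m ∈ v 2, v 0 ∈ m ∨ v 0 = m) → v 0 ∈ v 2) :=
    Dfb.imp (Dfb.bex ktr_zfm (Tm.var 2) h1) (Dfb.mem (Tm.var 0) (Tm.var 2))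
  have h3 : Dfb ZFm (fun _ v => ∀ x ∈ v 0, (∃ m ∈ v 1, x ∈ m ∨ x = m) → x ∈ v 1) :=
    Dfb.ball ktr_zfm (Tm.var 0) h2
  exact (Dfb.subset (Tm.var 1) (Tm.var 0)).and h3

theorem wj_gvs : Dfb ZFm (fun M v => gvs M (v 0) (v 1) (v 2) (v 3) (v 4)) := by
  have h1 : Dfb ZFm (fun _ v => (v 0 ∈ v 1 → v 2 ⊆ app (v 6) (v 0)) ∧
      (v 0 ∉ v 1 → v 2 ∩ app (v 6) (v 0) = ∅)) :=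
    ((Dfb.mem (Tm.var 0) (Tm.var 1)).imp
      (Dfb.subset (Tm.var 2) (Tm.app (Tm.var 6) (Tm.var 0)))).and
    ((Dfb.mem (Tm.var 0) (Tm.var 1)).not.imp
      (Dfb.eq (Tm.inter (Tm.var 2) (Tm.app (Tm.var 6) (Tm.var 0))) Tm.empty))
  have h2 : Dfb ZFm (fun _ v => v 0 ⊆ v 6 ∧ v 1 ⊆ app (v 4) (ZFSet.pair (v 6) (v 0)) ∧
      ∀ β ∈ v 6, (β ∈ v 0 → v 1 ⊆ app (v 5) β) ∧ (β ∉ v 0 → v 1 ∩ app (v 5) β = ∅)) :=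
    (Dfb.subset (Tm.var 0) (Tm.var 6)).and
      ((Dfb.subset (Tm.var 1) (Tm.app (Tm.var 4) (Tm.pair (Tm.var 6) (Tm.var 0)))).and
        (Dfb.ball ktr_zfm (Tm.var 6) h1))
  have h3 : Dfb ZFm (fun M v => v 0 ≠ ∅ ∧ v 0 ⊆ v 1 ∧ ∃ S, M S ∧ S ⊆ v 5 ∧
      v 0 ⊆ app (v 3) (ZFSet.pair (v 5) S) ∧
      ∀ β ∈ v 5, (β ∈ S → v 0 ⊆ app (v 4) β) ∧ (β ∉ S → v 0 ∩ app (v 4) β = ∅)) :=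
    (wj_nz 0).and ((Dfb.subset (Tm.var 0) (Tm.var 1)).and h2.ex)
  have h4 : Dfb ZFm (fun M v => v 0 ≠ ∅ → v 0 ⊆ v 5 → ∃ z ∈ v 1, z ≠ ∅ ∧ z ⊆ v 0 ∧
      ∃ S, M S ∧ S ⊆ v 4 ∧ z ⊆ app (v 2) (ZFSet.pair (v 4) S) ∧
      ∀ β ∈ v 4, (β ∈ S → z ⊆ app (v 3) β) ∧ (β ∉ S → z ∩ app (v 3) β = ∅)) :=
    (wj_nz 0).imp ((Dfb.subset (Tm.var 0) (Tm.var 5)).imp (Dfb.bex ktr_zfm (Tm.var 1) h3))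
  exact Dfb.ball ktr_zfm (Tm.var 0) h4

theorem wj_db : Dfb ZFm (fun M v => DBs M (v 0) (v 1) (v 2) (v 3)) := by
  have e2 : ∀ i j : ℕ, Dfb ZFm (fun _ v => EEx (v i) (v j)) := fun i j =>
    Dfb.at2 (P := fun _ x y => EEx x y) wj_eex (Tm.var i) (Tm.var j)
  have c1 : Dfb ZFm (fun _ v => Clb (v 1) (v 0)) :=
    Dfb.at2 (P := fun _ x y => Clb x y) wj_clb (Tm.var 1) (Tm.var 0)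
  have c2 : Dfb ZFm (fun _ v => ∀ t ∈ v 3, Clb (v 0) t) := Dfb.ball ktr_zfm (Tm.var 3) c1
  -- the end extension clause
  have a1 : Dfb ZFm (fun _ v => app (v 2) (v 1) ∩ app (v 2) (v 0) ≠ ∅ →
      EEx (v 1) (v 0) ∨ EEx (v 0) (v 1)) :=
    (Dfb.eq (Tm.inter (Tm.app (Tm.var 2) (Tm.var 1)) (Tm.app (Tm.var 2) (Tm.var 0)))
      Tm.empty).not.imp ((e2 1 0).or (e2 0 1))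
  have a2 : Dfb ZFm (fun _ v => ∀ t' ∈ v 8, app (v 1) (v 0) ∩ app (v 1) t' ≠ ∅ →
      EEx (v 0) t' ∨ EEx t' (v 0)) := Dfb.ball ktr_zfm (Tm.var 8) a1
  have a3 : Dfb ZFm (fun _ v => ∀ t ∈ v 7, ∀ t' ∈ v 7, app (v 0) t ∩ app (v 0) t' ≠ ∅ →
      EEx t t' ∨ EEx t' t) := Dfb.ball ktr_zfm (Tm.var 7) a2
  -- the density clause
  have b0 : Dfb ZFm (fun _ v => ∃ γ ∈ v 0, v 2 ∈ γ) :=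
    Dfb.bex (R := fun _ v => v 3 ∈ v 0) ktr_zfm (Tm.var 0) (Dfb.mem (Tm.var 3) (Tm.var 0))
  have b1 : Dfb ZFm (fun _ v => (∃ γ ∈ v 0, v 2 ∈ γ) ∧ v 1 ∩ app (v 3) (v 0) ≠ ∅) :=
    b0.and (Dfb.eq (Tm.inter (Tm.var 1) (Tm.app (Tm.var 3) (Tm.var 0))) Tm.empty).not
  have b2 : Dfb ZFm (fun _ v => v 0 ≠ ∅ → v 0 ⊆ v 3 → ∃ t ∈ v 9, (∃ γ ∈ t, v 1 ∈ γ) ∧
      v 0 ∩ app (v 2) t ≠ ∅) :=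
    (wj_nz 0).imp ((Dfb.subset (Tm.var 0) (Tm.var 3)).imp (Dfb.bex ktr_zfm (Tm.var 9) b1))
  have b3 : Dfb ZFm (fun _ v => ∀ x ∈ v 6, x ≠ ∅ → x ⊆ v 2 → ∃ t ∈ v 8, (∃ γ ∈ t, v 0 ∈ γ) ∧
      x ∩ app (v 1) t ≠ ∅) := Dfb.ball ktr_zfm (Tm.var 6) b2
  have b4 : Dfb ZFm (fun _ v => ∀ β ∈ v 4, ∀ x ∈ v 5, x ≠ ∅ → x ⊆ v 1 → ∃ t ∈ v 7,
      (∃ γ ∈ t, β ∈ γ) ∧ x ∩ app (v 0) t ≠ ∅) := Dfb.ball ktr_zfm (Tm.var 4) b3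
  -- the guessing clause
  have g1 : Dfb ZFm (fun M v => gvs M (v 7) (v 8) (v 5) (v 0) (app (v 2) (v 1))) :=
    wj_gvs.comp (args [fun _ v => v 7, fun _ v => v 8, fun _ v => v 5, fun _ v => v 0,
      fun _ v => app (v 2) (v 1)]) (tm_args _ (by
        intro a ha
        simp only [List.mem_cons, List.not_mem_nil, or_false] at ha
        rcases ha with rfl | rfl | rfl | rfl | rfl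
        · exact Tm.var 7
        · exact Tm.var 8
        · exact Tm.var 5
        · exact Tm.var 0
        · exact Tm.app (Tm.var 2) (Tm.var 1)))
  have g2 : Dfb ZFm (fun M v => ∀ δ ∈ v 0, gvs M (v 6) (v 7) (v 4) δ (app (v 1) (v 0))) :=
    Dfb.ball ktr_zfm (Tm.var 0) g1
  have g3 : Dfb ZFm (fun M v => ∀ t ∈ v 7, ∀ δ ∈ t, gvs M (v 5) (v 6) (v 3) δ (app (v 0) t)) :=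
    Dfb.ball ktr_zfm (Tm.var 7) g2
  have d1 : Dfb ZFm (fun M v => ZFSet.IsFunc (v 7) (v 5) (v 0) ∧
      (∀ t ∈ v 7, ∀ t' ∈ v 7, app (v 0) t ∩ app (v 0) t' ≠ ∅ → EEx t t' ∨ EEx t' t) ∧
      (∀ β ∈ v 4, ∀ x ∈ v 5, x ≠ ∅ → x ⊆ v 1 → ∃ t ∈ v 7,
        (∃ γ ∈ t, β ∈ γ) ∧ x ∩ app (v 0) t ≠ ∅) ∧
      ∀ t ∈ v 7, ∀ δ ∈ t, gvs M (v 5) (v 6) (v 3) δ (app (v 0) t)) :=
    (Dfb.isFunc (Tm.var 7) (Tm.var 5) (Tm.var 0)).and (a3.and (b4.and g3))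
  have d2 : Dfb ZFm (fun M v => v 0 ≠ ∅ ∧ v 0 ⊆ v 1 ∧ ∃ F, M F ∧
      ZFSet.IsFunc (v 6) (v 4) F ∧
      (∀ t ∈ v 6, ∀ t' ∈ v 6, app F t ∩ app F t' ≠ ∅ → EEx t t' ∨ EEx t' t) ∧
      (∀ β ∈ v 3, ∀ x ∈ v 4, x ≠ ∅ → x ⊆ v 0 → ∃ t ∈ v 6,
        (∃ γ ∈ t, β ∈ γ) ∧ x ∩ app F t ≠ ∅) ∧
      ∀ t ∈ v 6, ∀ δ ∈ t, gvs M (v 4) (v 5) (v 2) δ (app F t)) :=
    (wj_nz 0).and ((Dfb.subset (Tm.var 0) (Tm.var 1)).and d1.ex)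
  have d3 : Dfb ZFm (fun M v => v 0 ≠ ∅ → ∃ b2 ∈ v 3, b2 ≠ ∅ ∧ b2 ⊆ v 0 ∧ ∃ F, M F ∧
      ZFSet.IsFunc (v 5) (v 3) F ∧
      (∀ t ∈ v 5, ∀ t' ∈ v 5, app F t ∩ app F t' ≠ ∅ → EEx t t' ∨ EEx t' t) ∧
      (∀ β ∈ v 2, ∀ x ∈ v 3, x ≠ ∅ → x ⊆ b2 → ∃ t ∈ v 5,
        (∃ γ ∈ t, β ∈ γ) ∧ x ∩ app F t ≠ ∅) ∧
      ∀ t ∈ v 5, ∀ δ ∈ t, gvs M (v 3) (v 4) (v 1) δ (app F t)) :=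
    (wj_nz 0).imp (Dfb.bex ktr_zfm (Tm.var 3) d2)
  have d4 : Dfb ZFm (fun M v => ZFSet.IsFunc (v 1) (v 2) (v 0) → ∀ b ∈ v 2, b ≠ ∅ →
      ∃ b2 ∈ v 2, b2 ≠ ∅ ∧ b2 ⊆ b ∧ ∃ F, M F ∧
      ZFSet.IsFunc (v 4) (v 2) F ∧
      (∀ t ∈ v 4, ∀ t' ∈ v 4, app F t ∩ app F t' ≠ ∅ → EEx t t' ∨ EEx t' t) ∧
      (∀ β ∈ v 1, ∀ x ∈ v 2, x ≠ ∅ → x ⊆ b2 → ∃ t ∈ v 4,
        (∃ γ ∈ t, β ∈ γ) ∧ x ∩ app F t ≠ ∅) ∧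
      ∀ t ∈ v 4, ∀ δ ∈ t, gvs M (v 2) (v 3) (v 0) δ (app F t)) :=
    (Dfb.isFunc (Tm.var 1) (Tm.var 2) (Tm.var 0)).imp (Dfb.ball ktr_zfm (Tm.var 2) d3)
  exact c2.and d4.all

theorem wj : T_WJ := ⟨wj_nb, wj_cb, wj_db⟩

end SF.H30
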