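import Pool.Agent.H9.SF.WDefs

/-! WK of the board sf_modules: `NBs`, `CBs`, `DBs` for the universe. -/

set_option linter.unusedVariables false

open Ordinal Cardinal Order Set
open scoped ZFSet

namespace SF.H30

open SF

theorem wk_mk {B : V} [IsCBA B] {x : V} (h : x ∈ B) : (mkEl B x).val = x := by
  unfold mkEl
  rw [dif_pos h]

theorem wk_ne {B : V} [IsCBA B] {x : El B} : x ≠ ⊥ ↔ x.val ≠ ∅ := by
  constructor
  · intro h h1
    refine h (El.ext ?_)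
    rw [El.bot_val, h1]
  · rintro h rfl
    exact h El.bot_val

theorem wk_sup {B : V} [IsCBA B] {ι : Type*} (f : ι → El B) (b : El B) :
    b ≤ (⨆ i, f i) ↔ ∀ x ≤ b, x ≠ ⊥ → ∃ i, x ⊓ f i ≠ ⊥ := by
  constructor
  · intro h x hx hx0
    by_contra hcon
    push Not at hcon
    refine hx0 ?_
    have h1 : x = x ⊓ ⨆ i, f i := (inf_eq_left.2 (hx.trans h)).symm
    rw [h1, inf_iSup_eq]
    exact iSup_eq_bot.2 hcon
  · intro h
    by_contra hne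
    have h1 : b \ (⨆ i, f i) ≠ ⊥ := fun h2 => hne (sdiff_eq_bot_iff.1 h2)
    obtain ⟨i, hi⟩ := h _ sdiff_le h1
    refine hi (le_bot_iff.1 ?_)
    calc b \ (⨆ i, f i) ⊓ f i ≤ b \ (⨆ i, f i) ⊓ ⨆ i, f i := inf_le_inf_left _ (le_iSup f i)
      _ = ⊥ := disjoint_sdiff_self_left.eq_bot

theorem wk_bsup {B : V} [IsCBA B] {ι : Type*} (S : Set ι) (f : ι → El B) (b : El B) :
    b ≤ (⨆ i ∈ S, f i) ↔ ∀ x ≤ b, x ≠ ⊥ → ∃ i ∈ S, x ⊓ f i ≠ ⊥ := by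
  rw [iSup_subtype', wk_sup]
  refine forall_congr' fun x => imp_congr_right fun _ => imp_congr_right fun _ => ?_
  exact ⟨fun ⟨i, hi⟩ => ⟨i.1, i.2, hi⟩, fun ⟨i, h1, h2⟩ => ⟨⟨i, h1⟩, h2⟩⟩

/-- the number of an element of `ω` -/
noncomputable def wkI (z : V) : ℕ := open Classical in if h : ∃ n : ℕ, z = nS n then h.choose else 0

theorem wkI_nS (n : ℕ) : wkI (nS n) = n := by
  have h : ∃ m : ℕ, nS n = nS m := ⟨n, rfl⟩
  unfold wkI
  rw [dif_pos h]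
  exact (nS_inj.1 h.choose_spec).symm

theorem wk_w1 {x : V} : x ∈ w1 ↔ ∃ β < o1, x = β.toZFSet := by
  unfold w1
  rw [Ordinal.mem_toZFSet_iff]
  constructor
  · rintro ⟨a, ha, rfl⟩
    exact ⟨a, ha, rfl⟩
  · rintro ⟨a, ha, rfl⟩
    exact ⟨a, ha, rfl⟩

theorem wk_mem_ord {x : V} {δ : Ordinal.{0}} : x ∈ δ.toZFSet ↔ ∃ β < δ, x = β.toZFSet := by
  rw [Ordinal.mem_toZFSet_iff]
  constructor
  · rintro ⟨a, ha, rfl⟩
    exact ⟨a, ha, rfl⟩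
  · rintro ⟨a, ha, rfl⟩
    exact ⟨a, ha, rfl⟩

theorem wk_gaf (A : BA) {δ : Ordinal.{0}} (hδ : δ < o1) {S : V} (hS : S ⊆ δ.toZFSet) :
    app (gaf A) (ZFSet.pair δ.toZFSet S) = (A.g (acc δ.toZFSet S)).val := by
  have h1 : ZFSet.pair δ.toZFSet S ∈
      (ZFSet.prod w1 (ZFSet.powerset w1)).sep fun q => snd q ⊆ fst q := by
    refine ZFSet.mem_sep.2 ⟨ZFSet.pair_mem_prod.2 ⟨wk_w1.2 ⟨δ, hδ, rfl⟩, ?_⟩, ?_⟩
    · rw [ZFSet.mem_powerset]
      intro z hz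
      obtain ⟨β, hβ, rfl⟩ := wk_mem_ord.1 (hS hz)
      exact wk_w1.2 ⟨β, hβ.trans hδ, rfl⟩
    · rw [snd_pair, fst_pair]
      exact hS
  unfold gaf
  rw [app_resS h1, fst_pair, snd_pair]

theorem wk_nb (A : BA) (h : NBx A) : NBs Al w1 A.B := by
  intro F _ hF b hb hb0 hd
  have hFm : ∀ (n : ℕ) (β : Ordinal.{0}), β < o1 →
      app F (ZFSet.pair (nS n) β.toZFSet) ∈ A.B := fun n β hβ =>
    app_mem hF (ZFSet.pair_mem_prod.2 ⟨mem_om.2 ⟨n, rfl⟩, wk_w1.2 ⟨β, hβ, rfl⟩⟩)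
  have hb0' : mkEl A.B b ≠ ⊥ := by
    rw [wk_ne, wk_mk hb]
    exact hb0
  obtain ⟨b2, hb2, hb20, φ, hφ⟩ := h (fun n β => mkEl A.B (app F (ZFSet.pair (nS n) β.toZFSet)))
    (mkEl A.B b) hb0' (by
      intro n
      rw [wk_bsup]
      intro x hx hx0
      have h1 := El.le_iff.1 hx
      rw [wk_mk hb] at h1
      obtain ⟨β, hβ, h2⟩ := hd (nS n) (mem_om.2 ⟨n, rfl⟩) x.val x.mem (wk_ne.1 hx0) h1
      obtain ⟨β', hβ', rfl⟩ := wk_w1.1 hβ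
      refine ⟨β', hβ', ?_⟩
      rw [wk_ne, El.inf_val, wk_mk (hFm n β' hβ')]
      exact h2)
  have h1 := El.le_iff.1 hb2
  rw [wk_mk hb] at h1
  refine ⟨b2.val, b2.mem, wk_ne.1 hb20, h1, resS om fun z => (φ (wkI z)).toZFSet, trivial, ?_, ?_⟩
  · refine isFunc_resS _ _ _ fun x hx => ?_
    exact wk_w1.2 ⟨_, (hφ _).1, rfl⟩
  · intro n hn
    rw [app_resS hn]
    obtain ⟨m, rfl⟩ := mem_om.1 hn
    rw [wkI_nS]
    have h2 := El.le_iff.1 (hφ m).2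
    rw [wk_mk (hFm m _ (hφ m).1)] at h2
    exact h2

theorem wk_ctbl {Y : V} (h : (Y : Set V).Countable) : Ctbl Al Y := by
  by_cases h0 : Y = ∅
  · exact Or.inl h0
  · right
    have hne : ((Y : V) : Set V).Nonempty := by
      by_contra h1
      refine h0 ((ZFSet.eq_empty _).2 fun z hz => h1 ⟨z, hz⟩)
    obtain ⟨e, he⟩ := h.exists_eq_range hne
    have hm : ∀ n, e n ∈ Y := fun n => by
      have h1 : e n ∈ Set.range e := ⟨n, rfl⟩
      rw [← he] at h1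
      exact h1
    refine ⟨resS om fun z => e (wkI z), trivial, isFunc_resS _ _ _ fun x _ => hm _, ?_⟩
    intro y hy
    have h1 : y ∈ Set.range e := by
      rw [← he]
      exact hy
    obtain ⟨n, rfl⟩ := h1
    refine ⟨nS n, mem_om.2 ⟨n, rfl⟩, ?_⟩
    rw [pair_mem_resS, wkI_nS]
    exact ⟨mem_om.2 ⟨n, rfl⟩, rfl⟩

theorem wk_cb (A : BA) (h : CBx A) : CBs Al w1 A.B (gaf A) := by
  intro δ hδ b hb hb0
  obtain ⟨δ, hδ', rfl⟩ := wk_w1.1 hδ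
  have hb0' : mkEl A.B b ≠ ⊥ := by
    rw [wk_ne, wk_mk hb]
    exact hb0
  obtain ⟨b2, hb2, hb20, Y, hY, hY1, hY2⟩ := h δ hδ' (mkEl A.B b) hb0'
  have h1 := El.le_iff.1 hb2
  rw [wk_mk hb] at h1
  refine ⟨b2.val, b2.mem, wk_ne.1 hb20, h1, Y, trivial, wk_ctbl hY, ?_, ?_⟩
  · intro S hS
    refine ⟨(hY1 S hS).1, ?_⟩
    rw [wk_gaf A hδ' (hY1 S hS).1]
    exact El.le_iff.1 (hY1 S hS).2
  · intro S _ hS hSY
    rw [wk_gaf A hδ' hS, ← El.inf_val, hY2 S hS hSY, El.bot_val]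

theorem wk_db (A : BA) (h : DBx A) : DBs Al w1 A.B (gaf A) Tcl := by
  refine ⟨fun t ht => (ZFSet.mem_sep.1 ht).2, ?_⟩
  intro r _ hr b hb hb0
  have hb0' : mkEl A.B b ≠ ⊥ := by
    rw [wk_ne, wk_mk hb]
    exact hb0
  have hrm : ∀ β : Ordinal.{0}, β < o1 → app r β.toZFSet ∈ A.B := fun β hβ =>
    app_mem hr (wk_w1.2 ⟨β, hβ, rfl⟩)
  obtain ⟨b2, hb2, hb20, F, hF1, hF2, hF3, hF4⟩ := h (fun β => mkEl A.B (app r β.toZFSet))
    (mkEl A.B b) hb0'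
  have h1 := El.le_iff.1 hb2
  rw [wk_mk hb] at h1
  have happ : ∀ t ∈ Tcl, app (resS Tcl fun t => (F t).val) t = (F t).val := fun t ht =>
    app_resS ht
  refine ⟨b2.val, b2.mem, wk_ne.1 hb20, h1, resS Tcl fun t => (F t).val, trivial, ?_, ?_, ?_, ?_⟩
  · exact isFunc_resS _ _ _ fun x _ => (F x).mem
  · intro t ht t' ht' hne
    refine hF2 t ht t' ht' ?_
    rw [happ t ht, happ t' ht'] at hne
    rw [wk_ne, El.inf_val]
    exact hne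
  · intro β hβ x hx hx0 hxb
    obtain ⟨β, hβ', rfl⟩ := wk_w1.1 hβ
    have h2 : mkEl A.B x ≤ b2 := by
      rw [El.le_iff, wk_mk hx]
      exact hxb
    have h3 : mkEl A.B x ≠ ⊥ := by
      rw [wk_ne, wk_mk hx]
      exact hx0
    obtain ⟨t, ht, h4⟩ := (wk_bsup _ _ _).1 (hF3 β hβ') _ h2 h3
    refine ⟨t, ht.1, ht.2, ?_⟩
    rw [happ t ht.1]
    rw [wk_ne, El.inf_val, wk_mk hx] at h4
    exact h4
  · intro t ht δ hδ
    rw [happ t ht]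
    have htw : t ⊆ w1 := ZFSet.mem_powerset.1 (ZFSet.mem_sep.1 ht).1
    obtain ⟨δ, hδ', rfl⟩ := wk_w1.1 (htw hδ)
    have h2 := hF4 t ht δ hδ' hδ
    intro y hy hy0 hyt
    have h3 : mkEl A.B y ≤ F t := by
      rw [El.le_iff, wk_mk hy]
      exact hyt
    have h4 : mkEl A.B y ≠ ⊥ := by
      rw [wk_ne, wk_mk hy]
      exact hy0
    obtain ⟨⟨S, hS⟩, h5⟩ := (wk_sup _ _).1 (h3.trans h2) _ le_rfl h4
    obtain ⟨I, hI, h5'⟩ : ∃ I : El A.B, (∀ β : Ordinal.{0}, β < δ →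
        (β.toZFSet ∈ S → I ≤ mkEl A.B (app r β.toZFSet)) ∧
        (β.toZFSet ∉ S → I ≤ (mkEl A.B (app r β.toZFSet))ᶜ)) ∧
        mkEl A.B y ⊓ (A.g (acc δ.toZFSet S) ⊓ I) ≠ ⊥ := by
      refine ⟨_, ?_, h5⟩
      intro β hβ
      constructor
      · intro hin
        refine (iInf_le _ (⟨β, hβ⟩ : Set.Iio δ)).trans ?_
        exact (if_pos hin).le
      · intro hin
        refine (iInf_le _ (⟨β, hβ⟩ : Set.Iio δ)).trans ?_
        exact (if_neg hin).le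
    have z1 : mkEl A.B y ⊓ (A.g (acc δ.toZFSet S) ⊓ I) ≤ mkEl A.B y := inf_le_left
    have z2 : mkEl A.B y ⊓ (A.g (acc δ.toZFSet S) ⊓ I) ≤ A.g (acc δ.toZFSet S) :=
      inf_le_right.trans inf_le_left
    have z3 : mkEl A.B y ⊓ (A.g (acc δ.toZFSet S) ⊓ I) ≤ I := inf_le_right.trans inf_le_right
    refine ⟨(mkEl A.B y ⊓ (A.g (acc δ.toZFSet S) ⊓ I)).val, El.mem _, wk_ne.1 h5', ?_, S, trivial,
      hS, ?_, ?_⟩
    · have h6 := El.le_iff.1 z1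
      rw [wk_mk hy] at h6
      exact h6
    · rw [wk_gaf A hδ' hS]
      exact El.le_iff.1 z2
    · intro β hβ
      obtain ⟨β, hβ', rfl⟩ := wk_mem_ord.1 hβ
      have hβ1 : β < o1 := hβ'.trans hδ'
      constructor
      · intro hin
        have h6 := El.le_iff.1 (z3.trans ((hI β hβ').1 hin))
        rw [wk_mk (hrm β hβ1)] at h6
        exact h6
      · intro hin
        have h6 := z3.trans ((hI β hβ').2 hin)
        have h7 : mkEl A.B y ⊓ (A.g (acc δ.toZFSet S) ⊓ I) ⊓ mkEl A.B (app r β.toZFSet) = ⊥ := by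
          refine le_bot_iff.1 ?_
          calc _ ≤ (mkEl A.B (app r β.toZFSet))ᶜ ⊓ mkEl A.B (app r β.toZFSet) :=
                inf_le_inf_right _ h6
            _ = ⊥ := compl_inf_eq_bot
        have h8 := congrArg El.val h7
        rw [El.inf_val, wk_mk (hrm β hβ1), El.bot_val] at h8
        exact h8

theorem wk : T_WK := fun A => ⟨wk_nb A, wk_cb A, wk_db A⟩

end SF.H30
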