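import Pool.Agent.H9.SF.WDefs

/-! XC of the board sf_modules: countability of the terms of the generic sequence. -/

open Ordinal Cardinal Order Set
open scoped ZFSet

namespace SF.H30

open SF

theorem xc_cl_mem (q : V) : cl P0 leP0 q ∈ B0 := by
  refine mem_RO.2 ⟨fun z hz => (ZFSet.mem_sep.1 hz).1, ?_, ?_⟩
  · intro p hp r hr hrp
    obtain ⟨h1, h2⟩ := ZFSet.mem_sep.1 hp
    exact ZFSet.mem_sep.2 ⟨hr, fun t ht htr => h2 t ht (leP0_trans htr hrp)⟩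
  · intro p hp h
    refine ZFSet.mem_sep.2 ⟨hp, fun r hr hrp => ?_⟩
    obtain ⟨t, ht, htr⟩ := h r hr hrp
    obtain ⟨h1, h2⟩ := ZFSet.mem_sep.1 ht
    obtain ⟨s, hs, hst, h3⟩ := h2 t h1 (leP0_refl t)
    exact ⟨s, hs, leP0_trans hst htr, h3⟩

/-- the element of the base algebra generated by a condition -/
noncomputable def xcC (q : V) : El B0 := ⟨cl P0 leP0 q, xc_cl_mem q⟩

theorem xc_memC {q r : V} : r ∈ (xcC q).val ↔ r ∈ P0 ∧
    ∀ r' ∈ P0, leP0 r' r → ∃ s ∈ P0, leP0 s r' ∧ leP0 s q := by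
  show r ∈ cl P0 leP0 q ↔ _
  unfold cl
  rw [ZFSet.mem_sep]

theorem xc_memA {δ S r : V} : r ∈ (acc δ S).val ↔ r ∈ P0 ∧
    ∀ r' ∈ P0, leP0 r' r → ∃ s ∈ P0, leP0 s r' ∧ ∃ T, ZFSet.pair δ T ∈ s ∧ S ∈ T := by
  show r ∈ accV δ S ↔ _
  unfold accV
  rw [ZFSet.mem_sep]

theorem xc_self {q : V} (hq : q ∈ P0) : q ∈ (xcC q).val :=
  xc_memC.2 ⟨hq, fun r hr hrq => ⟨r, hr, leP0_refl r, hrq⟩⟩

theorem xc_lt_add {a : Ordinal.{0}} (h : a < Ordinal.omega.{0} 1) (n : ℕ) :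
    a + n < Ordinal.omega.{0} 1 := by
  have h1 : IsSuccLimit (Ordinal.omega.{0} 1) := Cardinal.isSuccLimit_omega 1
  induction n with
  | zero => simpa using h
  | succ n ih =>
    have h2 := h1.succ_lt ih
    rw [Order.succ_eq_add_one, add_assoc] at h2
    exact_mod_cast h2

theorem xc_rank_pair (x y : V) (γ : Ordinal.{0}) (hx : x.rank < γ) (hy : y.rank < γ) :
    (ZFSet.pair x y).rank < γ + 2 := by
  unfold ZFSet.pair
  have h1 : ({x} : V).rank ≤ γ := by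
    rw [ZFSet.rank_singleton, Order.succ_le_iff]
    exact hx
  have h2 : ({x, y} : V).rank ≤ γ := by
    rw [ZFSet.rank_pair]
    exact max_le (Order.succ_le_iff.2 hx) (Order.succ_le_iff.2 hy)
  rw [ZFSet.rank_pair]
  have h3 : γ + 2 = succ (succ γ) := by
    rw [Order.succ_eq_add_one, Order.succ_eq_add_one, add_assoc, one_add_one_eq_two]
  rw [h3]
  exact Order.lt_succ_iff.2 (max_le (Order.succ_le_succ h1) (Order.succ_le_succ h2))

theorem xc_ext {q0 : V} (h : q0 ∈ P0) (δ : Ordinal.{0}) (hδ : δ < o1) :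
    ∃ q1 ∈ P0, q0 ⊆ q1 ∧ ∃ Y, ZFSet.pair δ.toZFSet Y ∈ q1 := by
  classical
  obtain ⟨h1, α, S, hα, hS, rfl⟩ := ZFSet.mem_sep.1 h
  rw [ZFSet.mem_vonNeumann] at h1
  set q0 := ZFSet.range fun β : Set.Iio α => ZFSet.pair β.1.toZFSet (S β.1) with hq0
  have hδ1 : δ + 1 < Ordinal.omega.{0} 1 := by
    have := xc_lt_add hδ 1
    exact_mod_cast this
  let α' := max α (δ + 1)
  have hα' : α' < Ordinal.omega.{0} 1 := max_lt hα hδ1
  let S' : Ordinal.{0} → V := fun β => if β < α then S β else ∅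
  have hmem : ∀ β : Ordinal.{0}, β < α' → ZFSet.pair β.toZFSet (S' β) ∈
      ZFSet.range fun β : Set.Iio α' => ZFSet.pair β.1.toZFSet (S' β.1) := fun β hβ =>
    ZFSet.mem_range.2 ⟨⟨β, hβ⟩, rfl⟩
  refine ⟨ZFSet.range fun β : Set.Iio α' => ZFSet.pair β.1.toZFSet (S' β.1), ?_, ?_, ?_⟩
  · refine ZFSet.mem_sep.2 ⟨?_, α', S', hα', ?_, rfl⟩
    · rw [ZFSet.mem_vonNeumann]
      refine lt_of_le_of_lt ?_ (max_lt h1 (xc_lt_add hα' 3))
      rw [ZFSet.rank_le_iff]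
      intro z hz
      obtain ⟨⟨β, hβ⟩, rfl⟩ := ZFSet.mem_range.1 hz
      show (ZFSet.pair β.toZFSet (S' β)).rank < _
      by_cases hb : β < α
      · refine lt_max_of_lt_left ?_
        have h2 : S' β = S β := if_pos hb
        rw [h2]
        exact ZFSet.rank_lt_of_mem (ZFSet.mem_range.2 ⟨⟨β, hb⟩, rfl⟩)
      · refine lt_max_of_lt_right ?_
        have h2 : S' β = ∅ := if_neg hb
        rw [h2]
        have hβ' : β < α' := hβ
        have h3 : (β.toZFSet : V).rank < α' + 1 := by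
          rw [Ordinal.rank_toZFSet]
          exact lt_of_lt_of_le hβ' (le_self_add)
        have h4 : (∅ : V).rank < α' + 1 := by
          rw [ZFSet.rank_empty]
          exact lt_of_le_of_lt zero_le (Order.lt_add_one_iff.2 le_rfl)
        have h5 := xc_rank_pair _ _ _ h3 h4
        have h6 : α' + 1 + 2 = α' + ((3 : ℕ) : Ordinal.{0}) := by
          rw [add_assoc]
          norm_num
        rw [h6] at h5
        exact h5
    · intro β _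
      by_cases hb : β < α
      · have h2 : S' β = S β := if_pos hb
        rw [h2]
        exact hS β hb
      · have h2 : S' β = ∅ := if_neg hb
        rw [h2]
        refine ⟨?_, fun x hx => (ZFSet.notMem_empty _ hx).elim⟩
        simp
  · intro z hz
    obtain ⟨⟨β, hβ⟩, rfl⟩ := ZFSet.mem_range.1 hz
    have hβ' : β < α := hβ
    have h2 := hmem β (lt_max_of_lt_left hβ')
    have h3 : S' β = S β := if_pos hβ'
    rw [h3] at h2
    exact h2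
  · exact ⟨S' δ, hmem δ (lt_max_of_lt_right (Order.lt_add_one_iff.2 le_rfl))⟩

theorem xc_fun {q : V} (h : q ∈ P0) {x y z : V} (hy : ZFSet.pair x y ∈ q)
    (hz : ZFSet.pair x z ∈ q) : y = z := by
  obtain ⟨h1, α, S, hα, hS, rfl⟩ := ZFSet.mem_sep.1 h
  obtain ⟨⟨β, hβ⟩, h2⟩ := ZFSet.mem_range.1 hy
  obtain ⟨⟨γ, hγ⟩, h3⟩ := ZFSet.mem_range.1 hz
  obtain ⟨h4, h5⟩ := ZFSet.pair_inj.1 h2
  obtain ⟨h6, h7⟩ := ZFSet.pair_inj.1 h3
  have h8 : β = γ := Ordinal.toZFSet_injective (h4.trans h6.symm)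
  subst h8
  rw [← h5, ← h7]

theorem xc_bot {B C : V} [IsCBA B] [IsCBA C] (h : Mor B C) : h ⊥ = ⊥ := by
  have h1 := h.sup ∅
  rw [Set.image_empty, sSup_empty, sSup_empty] at h1
  exact h1

theorem xc_mono {B C : V} [IsCBA B] [IsCBA C] (h : Mor B C) {x y : El B} (hxy : x ≤ y) :
    h x ≤ h y := by
  have h1 := h.inf x y
  rw [inf_eq_left.2 hxy] at h1
  rw [h1]
  exact inf_le_right

theorem xc_ne {B : V} [IsCBA B] {x : El B} : x ≠ ⊥ ↔ ∃ z, z ∈ x.val := by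
  constructor
  · intro h
    by_contra h1
    push Not at h1
    refine h (El.ext ?_)
    rw [El.bot_val]
    exact (ZFSet.eq_empty _).2 h1
  · rintro ⟨z, hz⟩ rfl
    rw [El.bot_val] at hz
    exact ZFSet.notMem_empty _ hz

theorem xc : T_XC := by
  intro A δ hδ b hb
  -- the join
  let S : Set (El B0) := {x | ∃ q ∈ P0, (∃ Y, ZFSet.pair δ.toZFSet Y ∈ q) ∧ x = xcC q}
  have htop : sSup S = ⊤ := by
    by_contra hne
    have h1 : (sSup S)ᶜ ≠ ⊥ := fun h => hne (compl_eq_bot.1 h)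
    obtain ⟨q0, hq0⟩ := xc_ne.1 h1
    obtain ⟨m1, m2, m3⟩ := mem_RO.1 (sSup S)ᶜ.mem
    obtain ⟨q1, hq1, hsub, hY⟩ := xc_ext (m1 hq0) δ hδ
    have h2 : q1 ∈ ((sSup S)ᶜ).val := m2 q0 hq0 q1 hq1 hsub
    have h3 : q1 ∈ (xcC q1).val := xc_self hq1
    have h4 : xcC q1 ≤ sSup S := le_sSup ⟨q1, hq1, hY, rfl⟩
    have h5 : q1 ∈ (sSup S).val := El.le_iff.1 h4 h3
    have h6 : q1 ∈ ((sSup S)ᶜ ⊓ sSup S).val := by
      rw [El.inf_val]
      exact ZFSet.mem_inter.2 ⟨h2, h5⟩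
    rw [compl_inf_eq_bot, El.bot_val] at h6
    exact ZFSet.notMem_empty _ h6
  have h1 : ∃ q ∈ P0, (∃ Y, ZFSet.pair δ.toZFSet Y ∈ q) ∧ b ⊓ A.g (xcC q) ≠ ⊥ := by
    by_contra hcon
    push Not at hcon
    refine hb ?_
    have h2 : b = b ⊓ A.g (sSup S) := by rw [htop, A.unit, inf_top_eq]
    rw [h2, A.g.sup, inf_sSup_eq]
    refine le_bot_iff.1 (iSup₂_le ?_)
    rintro _ ⟨_, ⟨q, hq, ⟨Y, hY⟩, rfl⟩, rfl⟩
    exact (hcon q hq ⟨Y, hY⟩).le
  obtain ⟨q, hq, ⟨Y, hY⟩, hne⟩ := h1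
  have hYc : ((Y : V) : Set V).Countable ∧ ∀ x ∈ Y, x ⊆ δ.toZFSet := by
    obtain ⟨_, α, T, hα, hT, rfl⟩ := ZFSet.mem_sep.1 hq
    obtain ⟨⟨β, hβ⟩, h2⟩ := ZFSet.mem_range.1 hY
    obtain ⟨h4, h5⟩ := ZFSet.pair_inj.1 h2
    have h6 : β = δ := Ordinal.toZFSet_injective h4
    subst h6
    rw [← h5]
    exact hT β hβ
  refine ⟨b ⊓ A.g (xcC q), inf_le_left, hne, Y, hYc.1, ?_, ?_⟩
  · intro T hT
    refine ⟨hYc.2 T hT, inf_le_right.trans (xc_mono A.g (El.le_iff.2 ?_))⟩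
    intro r hr
    obtain ⟨hr1, hr2⟩ := xc_memC.1 hr
    refine xc_memA.2 ⟨hr1, fun r' hr' hle => ?_⟩
    obtain ⟨s, hs, hsr, hsq⟩ := hr2 r' hr' hle
    exact ⟨s, hs, hsr, Y, hsq hY, hT⟩
  · intro T _ hT
    have h2 : xcC q ⊓ acc δ.toZFSet T = ⊥ := by
      by_contra h3
      obtain ⟨r, hr⟩ := xc_ne.1 h3
      rw [El.inf_val] at hr
      obtain ⟨ha, hb'⟩ := ZFSet.mem_inter.1 hr
      obtain ⟨ha1, ha2⟩ := xc_memC.1 ha
      obtain ⟨hb1, hb2⟩ := xc_memA.1 hb'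
      obtain ⟨s, hs, hsr, T', hT', hTT⟩ := hb2 r ha1 (leP0_refl r)
      obtain ⟨s1, hs1, hs1s, hs1q⟩ := ha2 s hs hsr
      have h4 : T' = Y := xc_fun hs1 (hs1s hT') (hs1q hY)
      exact hT (h4 ▸ hTT)
    rw [inf_assoc, ← A.g.inf, h2, xc_bot, inf_bot_eq]

end SF.H30
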