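import Pool.Agent.H72.SF.XT
import Pool.Agent.H30.SF.XC

/-! XH of the board sf_modules: values of acceptance, regular open sets generated by
conditions. -/

open Ordinal Cardinal Order Set
open scoped ZFSet

namespace SF.H30

open SF

theorem xh_cl {q z : V} : z ∈ cl P0 leP0 q ↔ z ∈ P0 ∧
    ∀ r ∈ P0, leP0 r z → ∃ s ∈ P0, leP0 s r ∧ leP0 s q := by
  unfold cl
  rw [ZFSet.mem_sep]

theorem xh_sub {q x : V} (hx : x ∈ B0) (hq : q ∈ x) : cl P0 leP0 q ⊆ x := by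
  obtain ⟨h1, h2, h3⟩ := mem_RO.1 hx
  intro z hz
  obtain ⟨hz1, hz2⟩ := xh_cl.1 hz
  refine h3 z hz1 fun r hr hrz => ?_
  obtain ⟨s, hs, hsr, hsq⟩ := hz2 r hr hrz
  exact ⟨s, h2 q hq s hs hsq, hsr⟩

theorem xh : T_XH := by
  refine ⟨?_, ?_, ?_, ?_, ?_, ?_, fun δ S => rfl⟩
  · intro q hq δ T hT S hS z hz
    obtain ⟨hz1, hz2⟩ := xh_cl.1 hz
    refine ZFSet.mem_sep.2 ⟨hz1, fun r hr hrz => ?_⟩
    obtain ⟨s, hs, hsr, hsq⟩ := hz2 r hr hrz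
    exact ⟨s, hs, hsr, T, hsq hT, hS⟩
  · intro q hq
    have h1 : q ∈ cl P0 leP0 q := xh_cl.2 ⟨hq, fun r hr hrq => ⟨r, hr, leP0_refl r, hrq⟩⟩
    refine ⟨xc_cl_mem q, h1, fun h => ?_⟩
    rw [h] at h1
    exact ZFSet.notMem_empty _ h1
  · intro q hq q2 hq2 hsub z hz
    obtain ⟨hz1, hz2⟩ := xh_cl.1 hz
    refine xh_cl.2 ⟨hz1, fun r hr hrz => ?_⟩
    obtain ⟨s, hs, hsr, hsq⟩ := hz2 r hr hrz
    exact ⟨s, hs, hsr, fun w hw => hsq (hsub hw)⟩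
  · intro q hq q2 hq2 hne
    have h1 : ∃ x, x ∈ cl P0 leP0 q ∩ cl P0 leP0 q2 := by
      by_contra hcon
      push Not at hcon
      exact hne ((ZFSet.eq_empty _).2 hcon)
    obtain ⟨x, hx⟩ := h1
    obtain ⟨ha, hb⟩ := ZFSet.mem_inter.1 hx
    obtain ⟨ha1, ha2⟩ := xh_cl.1 ha
    obtain ⟨hb1, hb2⟩ := xh_cl.1 hb
    obtain ⟨s, hs, hsx, hsq⟩ := ha2 x ha1 (leP0_refl x)
    obtain ⟨s2, hs2, hs2s, hs2q⟩ := hb2 s hs hsx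
    exact ⟨s2, hs2, fun w hw => hs2s (hsq hw), hs2q⟩
  · intro x hx y hy hne
    have h1 : ∃ p, p ∈ x := by
      by_contra hcon
      push Not at hcon
      exact hne ((ZFSet.eq_empty _).2 hcon)
    obtain ⟨p, hp⟩ := h1
    obtain ⟨x1, x2, x3⟩ := mem_RO.1 hx
    obtain ⟨y1, y2, y3⟩ := mem_RO.1 hy
    by_cases hcase : ∃ q ∈ P0, leP0 q p ∧ q ∈ y
    · obtain ⟨q, hq, hqp, hqy⟩ := hcase
      exact ⟨q, hq, xh_sub hx (x2 p hp q hq hqp), Or.inl (xh_sub hy hqy)⟩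
    · refine ⟨p, x1 hp, xh_sub hx hp, Or.inr ?_⟩
      refine (ZFSet.eq_empty _).2 fun z hz => hcase ?_
      obtain ⟨ha, hb⟩ := ZFSet.mem_inter.1 hz
      obtain ⟨ha1, ha2⟩ := xh_cl.1 ha
      obtain ⟨s, hs, hsz, hsp⟩ := ha2 z ha1 (leP0_refl z)
      exact ⟨s, hs, hsp, y2 z hb s hs hsz⟩
  · have h1 : P0 ∈ B0 := mem_RO.2 ⟨fun _ h => h, fun _ _ q hq _ => hq, fun p hp _ => hp⟩
    have h2 : (⟨P0, h1⟩ : El B0) ≤ ⊤ := le_top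
    exact subset_antisymm (mem_RO.1 (⊤ : El B0).mem).1 (El.le_iff.1 h2)

end SF.H30
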